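import Pool.Agent.Lib.MP_2fd452_lc.Poly
import Pool.Agent.Lib.CookLevin.Hard

/-!
# Computing the partition dimension of trees is NP-hard

Every language in NP reduces in polynomial time to PD-TREES.
-/

namespace Pool.Agent.Results.MP_2fd452_lc.NPHard

open Pool.Agent.PolyTime Pool.Agent.PathSys Pool.Agent.MP_2fd452 Pool.Agent.CookLevin

/-- Every language in NP reduces in polynomial time to PD-TREES, by a reduction that produces
only trees and positive numbers `k`. -/
theorem result :
    Function.Injective (encode : GraphInput → List Bool) ∧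
    ∀ L ∈ N68a2faeb.NP, ∃ f : List Bool → GraphInput,
      Nonempty (Turing.TM2ComputableInPolyTime (N487b59b3.bitEncode (α := List Bool))
        (encode (α := GraphInput)) f) ∧
      ∀ x, (f x).graph.IsTree ∧ 0 < (f x).k ∧ (L x = true ↔ PDTrees (f x)) := by
  refine ⟨encode_injective, fun L hL => ?_⟩
  obtain ⟨f, hf, hL⟩ := cookLevin hL
  exact ⟨fun x => reduction (f x),
    Pool.Agent.PolyTime.PT.tm2Fmt inFmt_bitEncode outFmt_encode
      (PT.comp (g := reduction) PT.reduction hf),
    fun x => ⟨reduction_isTree _, reduction_pos _, (hL x).trans (reduction_correct _)⟩⟩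

end Pool.Agent.Results.MP_2fd452_lc.NPHard
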